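import Pool.Agent.Run7.h783.PL.Weyl
import Pool.Agent.N965.LN.Ftl
import Pool.Agent.N965.LN.Err

/-!
# Weyl sums on average over the multiples of a number with the Roth property (helper783)
-/

set_option autoImplicit false

open Finset

namespace Pool.Agent.Run7.h783.PL

open Pool.Agent.N965.LN (dn)

/-- the conclusion of Roth's theorem -/
def Roth (ξ : ℝ) : Prop := ∀ τ : ℝ, 0 < τ → ∃ c : ℝ, 0 < c ∧ ∀ q : ℕ, 1 ≤ q → ∀ p : ℤ,
  c ≤ (q : ℝ) ^ (1 + τ) * |q * ξ - p|

/-- sums of `1 / ‖m ξ‖` -/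
theorem base (ξ : ℝ) (h : Roth ξ) (τ : ℝ) (hτ : 0 < τ) : ∃ C : ℝ, 0 < C ∧ ∀ K : ℕ, 1 ≤ K →
    ∑ m ∈ Icc 1 K, 1 / dn ((m : ℝ) * ξ) ≤ C * (K : ℝ) ^ (1 + τ) := by
  classical
  obtain ⟨c, hc, hr⟩ := h (τ / 2) (by linarith)
  set σ : ℝ := (τ / 2) / (1 + τ / 2) with hσ
  have hσ0 : 0 < σ := by positivity
  set Z := ∑' b : ℕ, ((b : ℝ) ^ (1 + σ))⁻¹ with hZ
  have hZ0 : 0 ≤ Z := tsum_nonneg fun n => by positivity
  refine ⟨2 * Z * (1 / c) ^ (1 + σ) + 1, by positivity, fun K hK => ?_⟩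
  have hK0 : (0 : ℝ) < K := by exact_mod_cast (show 0 < K by omega)
  set R : ℝ := (K : ℝ) ^ (1 + τ / 2) / c with hR
  have hR0 : 0 < R := by positivity
  set J := ⌊R⌋₊ with hJ
  -- lower bounds
  have hlow : ∀ m : ℕ, 1 ≤ m → m ≤ K → ∀ p : ℤ, 1 ≤ R * |m * ξ - p| := by
    intro m hm hmK p
    have h1 := hr m hm p
    have h2 : (m : ℝ) ^ (1 + τ / 2) ≤ (K : ℝ) ^ (1 + τ / 2) :=
      Real.rpow_le_rpow (by positivity) (by exact_mod_cast hmK) (by linarith)
    have h3 : c ≤ (K : ℝ) ^ (1 + τ / 2) * |m * ξ - p| :=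
      h1.trans (mul_le_mul_of_nonneg_right h2 (abs_nonneg _))
    rw [hR, div_mul_eq_mul_div, le_div_iff₀ hc, one_mul]
    exact h3
  set x : ℕ → ℝ := fun m => (m : ℝ) * ξ - round ((m : ℝ) * ξ) with hx
  have hdx : ∀ m : ℕ, dn ((m : ℝ) * ξ) = |x m| := fun m => rfl
  have hx1 : ∀ m : ℕ, 1 ≤ m → m ≤ K → 1 ≤ R * |x m| := fun m h1 h2 => hlow m h1 h2 _
  set φ : ℕ → Bool × ℕ := fun m => (decide (0 ≤ x m), ⌊R * |x m|⌋₊) with hφ
  have hinj : Set.InjOn φ (Icc 1 K : Finset ℕ) := by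
    have key : ∀ m ∈ Icc 1 K, ∀ m' ∈ Icc 1 K, m < m' → φ m ≠ φ m' := by
      intro m hm m' hm' hlt heq
      rw [mem_Icc] at hm hm'
      simp only [hφ, Prod.mk.injEq, decide_eq_decide] at heq
      obtain ⟨hs, hf⟩ := heq
      have h1 := hlow (m' - m) (by omega) (by omega) (round ((m' : ℝ) * ξ) - round ((m : ℝ) * ξ))
      have h2 : (((m' - m : ℕ) : ℝ) * ξ - ((round ((m' : ℝ) * ξ) - round ((m : ℝ) * ξ) : ℤ) : ℝ)) =
          x m' - x m := by
        simp only [hx]
        rw [Nat.cast_sub hlt.le]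
        push_cast
        ring
      rw [h2] at h1
      have h3 := Nat.lt_floor_add_one (R * |x m|)
      have h4 := Nat.floor_le (show 0 ≤ R * |x m| by positivity)
      have h5 := Nat.lt_floor_add_one (R * |x m'|)
      have h6 := Nat.floor_le (show 0 ≤ R * |x m'| by positivity)
      rw [hf] at h3 h4
      have h7 : |x m' - x m| = abs (|x m'| - |x m|) := by
        rcases le_or_gt 0 (x m) with h | h
        · have h' := hs.1 h
          rw [abs_of_nonneg h, abs_of_nonneg h']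
        · have h' : x m' < 0 := by
            by_contra hcon
            have := hs.2 (not_lt.1 hcon)
            linarith
          rw [abs_of_neg h, abs_of_neg h', ← abs_neg]
          congr 1
          ring
      rw [h7] at h1
      have h8 : R * abs (|x m'| - |x m|) = abs (R * |x m'| - R * |x m|) := by
        rw [← mul_sub, abs_mul, abs_of_pos hR0]
      rw [h8] at h1
      have h9 : abs (R * |x m'| - R * |x m|) < 1 := by
        rw [abs_lt]
        constructor <;> linarith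
      linarith
    intro m hm m' hm' heq
    rcases lt_trichotomy m m' with h | h | h
    · exact absurd heq (key m hm m' hm' h)
    · exact h
    · exact absurd heq.symm (key m' hm' m hm h)
  have hfl : ∀ m ∈ Icc 1 K, 1 ≤ ⌊R * |x m|⌋₊ ∧ ⌊R * |x m|⌋₊ ≤ J := by
    intro m hm
    rw [mem_Icc] at hm
    refine ⟨(Nat.one_le_floor_iff _).2 (hx1 m hm.1 hm.2), Nat.floor_le_floor ?_⟩
    have h1 : |x m| ≤ 1 / 2 := abs_sub_round _
    nlinarith
  calc ∑ m ∈ Icc 1 K, 1 / dn ((m : ℝ) * ξ)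
      ≤ ∑ m ∈ Icc 1 K, (fun y : Bool × ℕ => R / (y.2 : ℝ)) (φ m) := by
        refine Finset.sum_le_sum fun m hm => ?_
        have h1 := hfl m hm
        rw [mem_Icc] at hm
        have h2 := hx1 m hm.1 hm.2
        have h3 : 0 < |x m| := by
          by_contra hcon
          have : |x m| = 0 := le_antisymm (not_lt.1 hcon) (abs_nonneg _)
          rw [this, mul_zero] at h2
          linarith
        rw [hdx m]
        simp only [hφ]
        have h4 : (0 : ℝ) < ((⌊R * |x m|⌋₊ : ℕ) : ℝ) := by exact_mod_cast (show 0 < ⌊R * |x m|⌋₊ by omega)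
        rw [div_le_div_iff₀ h3 h4, one_mul]
        exact Nat.floor_le (by positivity)
    _ = ∑ y ∈ (Icc 1 K).image φ, R / (y.2 : ℝ) := by
        rw [Finset.sum_image hinj]
    _ ≤ ∑ y ∈ (univ : Finset Bool) ×ˢ Icc 1 J, R / (y.2 : ℝ) := by
        refine Finset.sum_le_sum_of_subset_of_nonneg ?_ fun y _ _ => by positivity
        intro y hy
        obtain ⟨m, hm, rfl⟩ := Finset.mem_image.1 hy
        rw [mem_product]
        exact ⟨mem_univ _, mem_Icc.2 (hfl m hm)⟩
    _ = 2 * R * ∑ j ∈ Icc 1 J, 1 / (j : ℝ) := by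
        rw [Finset.sum_product, Fintype.sum_bool, Finset.mul_sum, ← Finset.sum_add_distrib]
        refine Finset.sum_congr rfl fun j _ => ?_
        ring
    _ ≤ 2 * R * (R ^ σ * Z) := by
        refine mul_le_mul_of_nonneg_left ?_ (by positivity)
        have h1 : ∀ j ∈ Icc 1 J, 1 / (j : ℝ) ≤ R ^ σ * ((j : ℝ) ^ (1 + σ))⁻¹ := by
          intro j hj
          rw [mem_Icc] at hj
          have hj0 : (0 : ℝ) < j := by exact_mod_cast (show 0 < j by omega)
          have hjR : (j : ℝ) ≤ R := by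
            have h2 : (j : ℝ) ≤ J := by exact_mod_cast hj.2
            exact h2.trans (Nat.floor_le hR0.le)
          have h2 : (j : ℝ) ^ σ ≤ R ^ σ := Real.rpow_le_rpow hj0.le hjR hσ0.le
          rw [Real.rpow_add hj0, Real.rpow_one, mul_inv, one_div]
          have h3 : (0 : ℝ) < (j : ℝ) ^ σ := by positivity
          calc (j : ℝ)⁻¹ = (j : ℝ) ^ σ * ((j : ℝ)⁻¹ * ((j : ℝ) ^ σ)⁻¹) := by
                field_simp
            _ ≤ R ^ σ * ((j : ℝ)⁻¹ * ((j : ℝ) ^ σ)⁻¹) :=
                mul_le_mul_of_nonneg_right h2 (by positivity)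
        refine (Finset.sum_le_sum h1).trans ?_
        rw [← Finset.mul_sum]
        exact mul_le_mul_of_nonneg_left (Pool.Agent.N965.LN.Err_.zsum hσ0 J) (by positivity)
    _ = 2 * Z * R ^ (1 + σ) := by
        rw [Real.rpow_add hR0, Real.rpow_one]
        ring
    _ = 2 * Z * (1 / c) ^ (1 + σ) * (K : ℝ) ^ (1 + τ) := by
        have h1 : R = (K : ℝ) ^ (1 + τ / 2) * (1 / c) := by
          rw [hR]
          ring
        rw [h1, Real.mul_rpow (by positivity) (by positivity), ← Real.rpow_mul hK0.le]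
        have h2 : (1 + τ / 2) * (1 + σ) = 1 + τ := by
          rw [hσ]
          field_simp
          ring
        rw [h2]
        ring
    _ ≤ (2 * Z * (1 / c) ^ (1 + σ) + 1) * (K : ℝ) ^ (1 + τ) := by
        have : (0 : ℝ) ≤ (K : ℝ) ^ (1 + τ) := by positivity
        nlinarith

/-- **Weyl sums on average.** -/
theorem avg (ξ : ℝ) (h : Roth ξ) (k : ℕ) : ∀ τ : ℝ, 0 < τ → ∃ C : ℝ, 0 < C ∧ ∀ N K : ℕ, 1 ≤ N →
    1 ≤ K → ∑ m ∈ Icc 1 K, BW k N ((m : ℝ) * ξ) ≤
      C * ((N : ℝ) * K) ^ τ * K * (N : ℝ) ^ (1 - 1 / (2 : ℝ) ^ k) := by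
  induction k with
  | zero =>
    intro τ hτ
    obtain ⟨C, hC, h1⟩ := base ξ h τ hτ
    refine ⟨C, hC, fun N K hN hK => ?_⟩
    have hN' : (1 : ℝ) ≤ N := by exact_mod_cast hN
    have hK' : (1 : ℝ) ≤ K := by exact_mod_cast hK
    have h2 := h1 K hK
    have h3 : (N : ℝ) ^ (1 - 1 / (2 : ℝ) ^ 0) = 1 := by
      rw [pow_zero, div_one, sub_self, Real.rpow_zero]
    rw [h3, mul_one]
    unfold BW
    refine h2.trans ?_
    rw [Real.rpow_add (by linarith), Real.rpow_one]
    have h4 : (K : ℝ) ^ τ ≤ ((N : ℝ) * K) ^ τ :=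
      Real.rpow_le_rpow (by positivity) (by nlinarith) hτ.le
    have h5 : (0 : ℝ) ≤ C * K := by positivity
    calc C * (K * (K : ℝ) ^ τ) = (C * K) * (K : ℝ) ^ τ := by ring
      _ ≤ (C * K) * ((N : ℝ) * K) ^ τ := mul_le_mul_of_nonneg_left h4 h5
      _ = _ := by ring
  | succ k ih =>
    intro τ hτ
    set τ0 : ℝ := 2 * τ / 3 with hτ0
    have hτ0' : 0 < τ0 := by positivity
    obtain ⟨C2, hC2, h2⟩ := ih τ0 hτ0'
    obtain ⟨C1, hC1, hdiv⟩ := Pool.Agent.H510R2.divisor_bound τ0 hτ0'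
    set A : ℝ := (k : ℝ) + 2 with hA
    have hA1 : 1 ≤ A := by
      have : (0 : ℝ) ≤ k := Nat.cast_nonneg k
      rw [hA]
      linarith
    set D : ℝ := C1 * C2 * A ^ (2 * τ0) * A with hD
    have hD0 : 0 < D := by positivity
    refine ⟨Real.sqrt (2 + 2 * D), Real.sqrt_pos.2 (by linarith), fun N K hN hK => ?_⟩
    have hN' : (1 : ℝ) ≤ N := by exact_mod_cast hN
    have hK' : (1 : ℝ) ≤ K := by exact_mod_cast hK
    have hN0 : (0 : ℝ) < N := by linarith
    have hK0 : (0 : ℝ) < K := by linarith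
    set P : ℝ := (N : ℝ) * K with hP
    have hP1 : 1 ≤ P := by
      rw [hP]
      nlinarith
    have hP0 : 0 < P := by linarith
    set L : ℕ := (k + 2) * N * K with hL
    have hL' : (L : ℝ) = A * P := by
      rw [hL, hA, hP]
      push_cast
      ring
    have hL1 : 1 ≤ L := by
      rw [hL]
      exact Nat.mul_pos (Nat.mul_pos (by omega) (by omega)) (by omega)
    set θ : ℝ := 1 - 1 / (2 : ℝ) ^ k with hθ
    have hθ0 : 0 ≤ θ := by
      rw [hθ]
      have h3 : (1 : ℝ) ≤ (2 : ℝ) ^ k := one_le_pow₀ (by norm_num)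
      have h4 : 1 / (2 : ℝ) ^ k ≤ 1 := by
        rw [div_le_one (by positivity)]
        exact h3
      linarith
    set F : ℕ → ℝ := fun n => BW k N ((n : ℝ) * ξ) with hF
    have hF0 : ∀ n, 0 ≤ F n := fun n => BW_nonneg _ _ _
    -- the inner sums
    have hI : ∑ m ∈ Icc 1 K, ∑ h ∈ Ico 1 N, BW k N ((((k + 2) * h : ℕ) : ℝ) * ((m : ℝ) * ξ)) ≤
        D * P ^ (3 * τ0) * P * (N : ℝ) ^ θ := by
      calc ∑ m ∈ Icc 1 K, ∑ h ∈ Ico 1 N, BW k N ((((k + 2) * h : ℕ) : ℝ) * ((m : ℝ) * ξ))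
          ≤ ∑ m ∈ Icc 1 K, ∑ n ∈ Icc 1 L, (if m ∣ n then F n else 0) := by
            refine Finset.sum_le_sum fun m hm => ?_
            rw [mem_Icc] at hm
            have h3 : ∑ h ∈ Ico 1 N, BW k N ((((k + 2) * h : ℕ) : ℝ) * ((m : ℝ) * ξ)) =
                ∑ v ∈ (Ico 1 N).image (fun h => (k + 2) * h), F (v * m) := by
              rw [Finset.sum_image]
              · refine Finset.sum_congr rfl fun h _ => ?_
                simp only [hF]
                congr 1
                push_cast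
                ring
              · intro a _ b _ hab
                exact Nat.eq_of_mul_eq_mul_left (show 0 < k + 2 by omega) hab
            rw [h3]
            refine le_trans ?_ (Pool.Agent.N965.LN.FtlAux.inner_le F hF0 m ((k + 2) * N) L hm.1 ?_)
            · refine Finset.sum_le_sum_of_subset_of_nonneg ?_ fun v _ _ => hF0 _
              intro v hv
              obtain ⟨h, hh, rfl⟩ := Finset.mem_image.1 hv
              rw [mem_Ico] at hh
              rw [mem_Icc]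
              exact ⟨Nat.mul_pos (by omega) (by omega), Nat.mul_le_mul_left _ hh.2.le⟩
            · rw [hL]
              exact Nat.mul_le_mul_left _ hm.2
        _ ≤ ∑ n ∈ Icc 1 L, (n.divisors.card : ℝ) * F n :=
            Pool.Agent.N965.LN.FtlAux.outer_le F hF0 K L
        _ ≤ ∑ n ∈ Icc 1 L, (C1 * (L : ℝ) ^ τ0) * F n := by
            refine Finset.sum_le_sum fun n hn => ?_
            rw [mem_Icc] at hn
            refine mul_le_mul_of_nonneg_right ((hdiv n hn.1).trans ?_) (hF0 n)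
            refine mul_le_mul_of_nonneg_left ?_ hC1.le
            exact Real.rpow_le_rpow (Nat.cast_nonneg _) (by exact_mod_cast hn.2) hτ0'.le
        _ = (C1 * (L : ℝ) ^ τ0) * ∑ n ∈ Icc 1 L, F n := by rw [Finset.mul_sum]
        _ ≤ (C1 * (L : ℝ) ^ τ0) * (C2 * ((N : ℝ) * L) ^ τ0 * L * (N : ℝ) ^ θ) :=
            mul_le_mul_of_nonneg_left (h2 N L hN hL1) (by positivity)
        _ ≤ (C1 * (A * P) ^ τ0) * (C2 * (A * (P * P)) ^ τ0 * (A * P) * (N : ℝ) ^ θ) := by
            rw [hL']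
            have h4 : (N : ℝ) * (A * P) ≤ A * (P * P) := by
              have h5 : (N : ℝ) ≤ P := by
                rw [hP]
                nlinarith
              have h6 : 0 ≤ A * P := by positivity
              nlinarith
            have h5 : ((N : ℝ) * (A * P)) ^ τ0 ≤ (A * (P * P)) ^ τ0 :=
              Real.rpow_le_rpow (by positivity) h4 hτ0'.le
            have h6 : C2 * ((N : ℝ) * (A * P)) ^ τ0 * (A * P) * (N : ℝ) ^ θ ≤
                C2 * (A * (P * P)) ^ τ0 * (A * P) * (N : ℝ) ^ θ := by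
              gcongr
            exact mul_le_mul_of_nonneg_left h6 (by positivity)
        _ = D * P ^ (3 * τ0) * P * (N : ℝ) ^ θ := by
            have hA0 : (0 : ℝ) < A := by linarith
            have e1 : (A * P) ^ τ0 = A ^ τ0 * P ^ τ0 := Real.mul_rpow hA0.le hP0.le
            have e2 : (A * (P * P)) ^ τ0 = A ^ τ0 * (P ^ τ0 * P ^ τ0) := by
              rw [Real.mul_rpow hA0.le (by positivity), Real.mul_rpow hP0.le hP0.le]
            have e3 : A ^ (2 * τ0) = A ^ τ0 * A ^ τ0 := by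
              rw [← Real.rpow_add hA0]
              congr 1
              ring
            have e4 : P ^ (3 * τ0) = P ^ τ0 * (P ^ τ0 * P ^ τ0) := by
              rw [← Real.rpow_add hP0, ← Real.rpow_add hP0]
              congr 1
              ring
            rw [e1, e2, e4, hD, e3]
            ring
    -- Cauchy's inequality
    have hS : (∑ m ∈ Icc 1 K, BW (k + 1) N ((m : ℝ) * ξ)) ^ 2 ≤
        K * (2 * P + 2 * (D * P ^ (3 * τ0) * P * (N : ℝ) ^ θ)) := by
      have h3 := sq_sum_le_card_mul_sum_sq (s := Icc 1 K) (f := fun m : ℕ => BW (k + 1) N ((m : ℝ) * ξ))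
      refine h3.trans ?_
      rw [Nat.card_Icc, Nat.add_sub_cancel]
      refine mul_le_mul_of_nonneg_left ?_ hK0.le
      have h4 : ∀ m ∈ Icc 1 K, BW (k + 1) N ((m : ℝ) * ξ) ^ 2 =
          2 * (N : ℝ) + 2 * ∑ h ∈ Ico 1 N, BW k N ((((k + 2) * h : ℕ) : ℝ) * ((m : ℝ) * ξ)) := by
        intro m _
        rw [BW, Real.sq_sqrt]
        · ring
        · have : 0 ≤ ∑ h ∈ Ico 1 N, BW k N ((((k + 2) * h : ℕ) : ℝ) * ((m : ℝ) * ξ)) :=
            Finset.sum_nonneg fun _ _ => BW_nonneg _ _ _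
          positivity
      rw [Finset.sum_congr rfl h4, Finset.sum_add_distrib, ← Finset.mul_sum (Icc 1 K)
        (fun m => ∑ h ∈ Ico 1 N, BW k N ((((k + 2) * h : ℕ) : ℝ) * ((m : ℝ) * ξ))) 2,
        Finset.sum_const, Nat.card_Icc, Nat.add_sub_cancel, nsmul_eq_mul]
      have h5 : (K : ℝ) * (2 * N) = 2 * P := by
        rw [hP]
        ring
      rw [h5]
      linarith
    have hbig : 2 * P + 2 * (D * P ^ (3 * τ0) * P * (N : ℝ) ^ θ) ≤
        (2 + 2 * D) * P ^ (3 * τ0) * P * (N : ℝ) ^ θ := by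
      have h3 : 1 ≤ P ^ (3 * τ0) := Real.one_le_rpow hP1 (by positivity)
      have h4 : 1 ≤ (N : ℝ) ^ θ := Real.one_le_rpow hN' hθ0
      have h5 : P * 1 ≤ P * (P ^ (3 * τ0) * (N : ℝ) ^ θ) :=
        mul_le_mul_of_nonneg_left (one_le_mul_of_one_le_of_one_le h3 h4) hP0.le
      nlinarith
    set θ' : ℝ := 1 - 1 / (2 : ℝ) ^ (k + 1) with hθ'
    have hθ2 : θ' + θ' = 1 + θ := by
      rw [hθ', hθ, pow_succ]
      field_simp
      ring
    have hRHS : (K : ℝ) * ((2 + 2 * D) * P ^ (3 * τ0) * P * (N : ℝ) ^ θ) =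
        (Real.sqrt (2 + 2 * D) * P ^ τ * K * (N : ℝ) ^ θ') ^ 2 := by
      have e1 : Real.sqrt (2 + 2 * D) ^ 2 = 2 + 2 * D := Real.sq_sqrt (by linarith)
      have e2 : (P ^ τ) ^ 2 = P ^ (3 * τ0) := by
        rw [sq, ← Real.rpow_add hP0]
        congr 1
        rw [hτ0]
        ring
      have e3 : ((N : ℝ) ^ θ') ^ 2 = N * (N : ℝ) ^ θ := by
        rw [sq, ← Real.rpow_add hN0, hθ2, Real.rpow_add hN0, Real.rpow_one]
      rw [mul_pow, mul_pow, mul_pow, e1, e2, e3, hP]
      ring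
    have hfin := hS.trans (mul_le_mul_of_nonneg_left hbig hK0.le)
    rw [hRHS] at hfin
    exact (pow_le_pow_iff_left₀ (Finset.sum_nonneg fun _ _ => BW_nonneg _ _ _) (by positivity)
      (by norm_num)).1 hfin

end Pool.Agent.Run7.h783.PL
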