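import Pool.Agent.N965.LN.Fej
import Pool.Agent.H520R3.Weyl

/-!
# The Fejér majorant for arbitrary sequences (helper783)
-/

set_option autoImplicit false

open Finset

namespace Pool.Agent.Run7.h783.PL

open Pool.Agent.N965.LN (dn)

theorem e_eq (x : ℝ) : Pool.Agent.N965.LN.Fej.e x = Pool.Agent.H520R3.e x := by
  unfold Pool.Agent.N965.LN.Fej.e Pool.Agent.H520R3.e
  rw [mul_comm]

theorem norm_neg_sum (x : ℕ → ℝ) (N : ℕ) (v : ℝ) :
    ‖∑ n ∈ range N, Pool.Agent.N965.LN.Fej.e (-v * x n)‖ =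
      ‖∑ n ∈ range N, Pool.Agent.N965.LN.Fej.e (v * x n)‖ := by
  have h : ∑ n ∈ range N, Pool.Agent.N965.LN.Fej.e (-v * x n) =
      (starRingEnd ℂ) (∑ n ∈ range N, Pool.Agent.N965.LN.Fej.e (v * x n)) := by
    rw [map_sum]
    refine Finset.sum_congr rfl fun n _ => ?_
    rw [← Pool.Agent.N965.LN.Fej.e_neg]
    congr 1
    ring
  rw [h, RCLike.norm_conj]

/-- the mean value of the kernel -/
theorem mean_le (x : ℕ → ℝ) (N V : ℕ) :
    ∑ n ∈ range N, ‖Pool.Agent.N965.LN.Fej.D V (x n)‖ ^ 2 ≤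
      V * (N + 2 * ∑ v ∈ Icc 1 V, ‖∑ n ∈ range N, Pool.Agent.N965.LN.Fej.e ((v : ℝ) * x n)‖) := by
  set S : ℝ → ℝ := fun v => ‖∑ n ∈ range N, Pool.Agent.N965.LN.Fej.e (v * x n)‖ with hS
  have h1 : ((∑ n ∈ range N, ‖Pool.Agent.N965.LN.Fej.D V (x n)‖ ^ 2 : ℝ) : ℂ) =
      ∑ a ∈ Icc (-(V : ℤ)) V, (((V : ℝ) - |(a : ℝ)| : ℝ) : ℂ) *
        ∑ n ∈ range N, Pool.Agent.N965.LN.Fej.e (a * x n) := by
    rw [Complex.ofReal_sum]
    simp only [← Pool.Agent.N965.LN.Fej.fej]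
    rw [Finset.sum_comm]
    refine Finset.sum_congr rfl fun a _ => ?_
    rw [Finset.mul_sum]
  have h0 : (0 : ℝ) ≤ ∑ n ∈ range N, ‖Pool.Agent.N965.LN.Fej.D V (x n)‖ ^ 2 :=
    Finset.sum_nonneg fun _ _ => by positivity
  have h2 : ∑ n ∈ range N, ‖Pool.Agent.N965.LN.Fej.D V (x n)‖ ^ 2 ≤
      ∑ a ∈ Icc (-(V : ℤ)) V, (V : ℝ) * S a := by
    have h3 : ∑ n ∈ range N, ‖Pool.Agent.N965.LN.Fej.D V (x n)‖ ^ 2 =
        ‖((∑ n ∈ range N, ‖Pool.Agent.N965.LN.Fej.D V (x n)‖ ^ 2 : ℝ) : ℂ)‖ := by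
      rw [Complex.norm_real, Real.norm_eq_abs, abs_of_nonneg h0]
    rw [h3, h1]
    refine (norm_sum_le _ _).trans (Finset.sum_le_sum fun a ha => ?_)
    rw [norm_mul, Complex.norm_real, Real.norm_eq_abs]
    refine mul_le_mul_of_nonneg_right ?_ (norm_nonneg _)
    rw [mem_Icc, ← abs_le] at ha
    have h4 : |(a : ℝ)| ≤ V := by exact_mod_cast ha
    rw [abs_of_nonneg (by linarith)]
    have := abs_nonneg (a : ℝ)
    linarith
  refine h2.trans (le_of_eq ?_)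
  rw [Pool.Agent.N965.LN.Fej.sumIcc]
  have h5 : S ((0 : ℤ) : ℝ) = N := by
    simp only [hS, Int.cast_zero, zero_mul, Pool.Agent.N965.LN.Fej.e_zero]
    simp
  rw [h5]
  have h6 : ∀ k ∈ range V, ((V : ℝ) * S (((k : ℤ) + 1 : ℤ) : ℝ) + (V : ℝ) * S ((-((k : ℤ) + 1) : ℤ) : ℝ)) =
      (V : ℝ) * (2 * S ((k + 1 : ℕ) : ℝ)) := by
    intro k _
    have h7 : S ((-((k : ℤ) + 1) : ℤ) : ℝ) = S ((k + 1 : ℕ) : ℝ) := by
      have h8 : ((-((k : ℤ) + 1) : ℤ) : ℝ) = -((k + 1 : ℕ) : ℝ) := by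
        push_cast
        ring
      rw [h8]
      exact norm_neg_sum x N _
    have h9 : (((k : ℤ) + 1 : ℤ) : ℝ) = ((k + 1 : ℕ) : ℝ) := by push_cast; ring
    rw [h7, h9]
    ring
  rw [Finset.sum_congr rfl h6, ← Finset.mul_sum, ← Finset.mul_sum]
  have h10 : ∑ v ∈ Icc 1 V, ‖∑ n ∈ range N, Pool.Agent.N965.LN.Fej.e ((v : ℝ) * x n)‖ =
      ∑ k ∈ range V, S ((k + 1 : ℕ) : ℝ) := by
    have h11 := Finset.sum_Ico_add' (fun k : ℕ => S ((k : ℕ) : ℝ)) 0 V 1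
    rw [← Finset.range_eq_Ico] at h11
    rw [h11]
    apply Finset.sum_congr
    · ext v
      simp only [mem_Icc, mem_Ico]
      omega
    · intro _ _
      rfl
  rw [h10]
  ring

/-- **The Fejér majorant.** -/
theorem count (x : ℕ → ℝ) (N : ℕ) (ρ : ℝ) (hρ : 0 < ρ) :
    (((range N).filter fun n => dn (x n) ≤ ρ).card : ℝ) ≤
      10 * ρ * N + 20 * ρ * ∑ v ∈ Icc 1 ⌊1 / (2 * ρ)⌋₊,
        ‖∑ n ∈ range N, Pool.Agent.H520R3.e ((v : ℝ) * x n)‖ := by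
  have hS : 0 ≤ ∑ v ∈ Icc 1 ⌊1 / (2 * ρ)⌋₊,
        ‖∑ n ∈ range N, Pool.Agent.H520R3.e ((v : ℝ) * x n)‖ :=
    Finset.sum_nonneg fun _ _ => norm_nonneg _
  rcases lt_or_ge (1 / 2) ρ with hbig | hρ2
  · have h1 : (((range N).filter fun n => dn (x n) ≤ ρ).card : ℝ) ≤ N := by
      have := Finset.card_filter_le (range N) (fun n => dn (x n) ≤ ρ)
      rw [card_range] at this
      exact_mod_cast this
    have h2 : (N : ℝ) ≤ 10 * ρ * N := by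
      have hN : (0 : ℝ) ≤ N := Nat.cast_nonneg N
      nlinarith
    have h3 : 0 ≤ 20 * ρ * ∑ v ∈ Icc 1 ⌊1 / (2 * ρ)⌋₊,
        ‖∑ n ∈ range N, Pool.Agent.H520R3.e ((v : ℝ) * x n)‖ := by positivity
    linarith
  have hpi := Real.pi_pos
  obtain ⟨V, hV⟩ : ∃ V : ℕ, V = ⌊1 / (2 * ρ)⌋₊ := ⟨_, rfl⟩
  have hr : (1 : ℝ) ≤ 1 / (2 * ρ) := by
    rw [le_div_iff₀ (by positivity)]
    linarith
  have hV1 : 1 ≤ V := by
    rw [hV]
    exact (Nat.one_le_floor_iff _).2 hr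
  have hV1' : (1 : ℝ) ≤ V := by exact_mod_cast hV1
  have hV2 : (V : ℝ) ≤ 1 / (2 * ρ) := by
    rw [hV]
    exact Nat.floor_le (by positivity)
  have hV3 : 1 / (2 * ρ) < (V : ℝ) + 1 := by
    rw [hV]
    exact Nat.lt_floor_add_one _
  have hρV : ρ ≤ 1 / (2 * V) := by
    rw [le_div_iff₀ (by positivity)] at hV2 ⊢
    linarith
  have hV4 : 1 / (V : ℝ) ≤ 4 * ρ := by
    rw [div_lt_iff₀ (by positivity)] at hV3
    rw [div_le_iff₀ (by positivity)]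
    nlinarith
  rw [← hV] at hS ⊢
  set T' := ∑ v ∈ Icc 1 V, ‖∑ n ∈ range N, Pool.Agent.H520R3.e ((v : ℝ) * x n)‖ with hT
  have h1 : (((range N).filter fun n => dn (x n) ≤ ρ).card : ℝ) ≤
      Real.pi ^ 2 / (4 * (V : ℝ) ^ 2) * ∑ n ∈ range N, ‖Pool.Agent.N965.LN.Fej.D V (x n)‖ ^ 2 := by
    rw [Finset.mul_sum]
    calc (((range N).filter fun n => dn (x n) ≤ ρ).card : ℝ)
        = ∑ n ∈ (range N).filter fun n => dn (x n) ≤ ρ, (1 : ℝ) := by simp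
      _ ≤ ∑ n ∈ (range N).filter fun n => dn (x n) ≤ ρ,
          Real.pi ^ 2 / (4 * (V : ℝ) ^ 2) * ‖Pool.Agent.N965.LN.Fej.D V (x n)‖ ^ 2 := by
          refine Finset.sum_le_sum fun n hn => ?_
          rw [Finset.mem_filter] at hn
          have h2 := Pool.Agent.N965.LN.Fej.D_ge hV1 (hn.2.trans hρV)
          have h3 : (2 * (V : ℝ) / Real.pi) ^ 2 ≤ ‖Pool.Agent.N965.LN.Fej.D V (x n)‖ ^ 2 :=
            pow_le_pow_left₀ (by positivity) h2 2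
          calc (1 : ℝ) = Real.pi ^ 2 / (4 * (V : ℝ) ^ 2) * (2 * (V : ℝ) / Real.pi) ^ 2 := by
                field_simp
                ring
            _ ≤ _ := mul_le_mul_of_nonneg_left h3 (by positivity)
      _ ≤ _ := Finset.sum_le_sum_of_subset_of_nonneg (Finset.filter_subset _ _)
          fun _ _ _ => by positivity
  have h2 := mean_le x N V
  have h3 : ∑ v ∈ Icc 1 V, ‖∑ n ∈ range N, Pool.Agent.N965.LN.Fej.e ((v : ℝ) * x n)‖ = T' := by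
    rw [hT]
    simp only [e_eq]
  rw [h3] at h2
  have h4 : Real.pi ^ 2 ≤ 10 := by
    have := Real.pi_lt_d2
    nlinarith
  have hN : (0 : ℝ) ≤ N := Nat.cast_nonneg N
  calc (((range N).filter fun n => dn (x n) ≤ ρ).card : ℝ)
      ≤ Real.pi ^ 2 / (4 * (V : ℝ) ^ 2) * (V * (N + 2 * T')) :=
        h1.trans (mul_le_mul_of_nonneg_left h2 (by positivity))
    _ = Real.pi ^ 2 / 4 * (1 / (V : ℝ)) * (N + 2 * T') := by
        field_simp
    _ ≤ 10 / 4 * (4 * ρ) * (N + 2 * T') := by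
        gcongr
    _ = 10 * ρ * N + 20 * ρ * T' := by ring

end Pool.Agent.Run7.h783.PL
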