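import Pool.Agent.Run7.h783.PL.Avg
import Pool.Agent.Run7.h783.PL.Fej
import Pool.Agent.N965.LN.Ps
import Pool.Agent.N965.LN.Psi

/-!
# The error term (helper783)
-/

set_option autoImplicit false

open Finset Filter Topology

namespace Pool.Agent.Run7.h783.PL

open Pool.Agent.N965.LN (dn)

theorem err (ξ : ℝ) (h : Roth ξ) (k : ℕ) (τ : ℝ) (hτ : 0 < τ) (hτ1 : τ ≤ 1) (ψ : ℕ → ℝ)
    (hψ0 : ∀ n, 0 < ψ n) (hψ : Antitone ψ) (hs : Summable ψ) (D : ℝ) (hD : 0 < D)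
    (hDψ : ∀ n : ℕ, 1 ≤ n → (n : ℝ) ^ (-(1 + τ)) ≤ D * ψ n) :
    ∃ C : ℝ, 0 < C ∧ ∀ N X : ℕ, 1 ≤ N → 1 ≤ X →
      ∑ t ∈ Icc 1 X, ψ t * (∑ v ∈ Icc 1 ⌊1 / (2 * ψ t)⌋₊, BW k N (((v * t : ℕ) : ℝ) * ξ)) ≤
        C * (N : ℝ) ^ (1 - 1 / (2 : ℝ) ^ k + τ) * (X : ℝ) ^ (1 + 7 * τ) := by
  obtain ⟨C2, hC2, h2⟩ := avg ξ h k τ hτ
  obtain ⟨C1, hC1, hdiv⟩ := Pool.Agent.H510R2.divisor_bound τ hτ
  have hnψ := (Pool.Agent.N965.LN.t_PSI ψ (fun n => (hψ0 n).le) hψ hs).1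
  set Ψ := ∑' n, ψ n with hΨ
  have hΨ0 : 0 < Ψ := hs.tsum_pos (fun n => (hψ0 n).le) 0 (hψ0 0)
  set D' : ℝ := D / 2 with hD'
  have hD'0 : 0 < D' := by positivity
  refine ⟨2 * Ψ * (C1 * C2 * D' ^ (1 + 2 * τ)), by positivity, fun N X hN hX => ?_⟩
  have hN' : (1 : ℝ) ≤ N := by exact_mod_cast hN
  have hX' : (1 : ℝ) ≤ X := by exact_mod_cast hX
  have hN0 : (0 : ℝ) < N := by linarith
  have hX0 : (0 : ℝ) < X := by linarith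
  set θ : ℝ := 1 - 1 / (2 : ℝ) ^ k with hθ
  set F : ℕ → ℝ := fun n => BW k N ((n : ℝ) * ξ) with hF
  have hF0 : ∀ n, 0 ≤ F n := fun n => BW_nonneg _ _ _
  set f : ℕ → ℝ := fun t => ∑ v ∈ Icc 1 ⌊1 / (2 * ψ t)⌋₊, F (v * t) with hf
  have hf0 : ∀ n, 0 ≤ f n := fun n => Finset.sum_nonneg fun _ _ => hF0 _
  set Y : ℝ := (X : ℝ) ^ τ * D' with hY
  have hY0 : 0 < Y := by positivity
  have hfl : ∀ t, 1 ≤ t → t ≤ X → ⌊1 / (2 * ψ t)⌋₊ ≤ ⌊(t : ℝ) * Y⌋₊ := by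
    intro t ht1 ht2
    apply Nat.floor_le_floor
    have ht0 : (0 : ℝ) < t := by exact_mod_cast (show 0 < t by omega)
    have h1 := hDψ t ht1
    have hp := hψ0 t
    have hx : 0 < (t : ℝ) ^ (1 + τ) := Real.rpow_pos_of_pos ht0 _
    have h3 : 1 / ψ t ≤ D * (t : ℝ) ^ (1 + τ) := by
      rw [div_le_iff₀ hp]
      rw [Real.rpow_neg ht0.le] at h1
      have h5 : ((t : ℝ) ^ (1 + τ))⁻¹ * (t : ℝ) ^ (1 + τ) = 1 := inv_mul_cancel₀ hx.ne'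
      have h6 := mul_le_mul_of_nonneg_right h1 hx.le
      rw [h5] at h6
      linarith
    have h4 : (t : ℝ) ^ (1 + τ) ≤ t * (X : ℝ) ^ τ := by
      rw [Real.rpow_add ht0, Real.rpow_one]
      have h5 : (t : ℝ) ^ τ ≤ (X : ℝ) ^ τ :=
        Real.rpow_le_rpow ht0.le (by exact_mod_cast ht2) hτ.le
      exact mul_le_mul_of_nonneg_left h5 ht0.le
    calc 1 / (2 * ψ t) = (1 / ψ t) * (1 / 2) := by
          field_simp
      _ ≤ (D * (t * (X : ℝ) ^ τ)) * (1 / 2) :=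
          mul_le_mul_of_nonneg_right (h3.trans (mul_le_mul_of_nonneg_left h4 hD.le)) (by norm_num)
      _ = (t : ℝ) * Y := by
          rw [hY, hD']
          ring
  have hsumf : ∀ s : ℕ, s ≤ X → ∑ t ∈ Icc 1 s, f t ≤
      (C1 * C2 * Y ^ (1 + 2 * τ) * (N : ℝ) ^ (θ + τ)) * (s : ℝ) ^ (2 + 2 * (2 * τ)) := by
    intro s hs
    obtain ⟨L, hL⟩ : ∃ L : ℕ, L = ⌊Y * (s : ℝ) ^ 2⌋₊ := ⟨_, rfl⟩
    have hL' : (L : ℝ) ≤ Y * (s : ℝ) ^ 2 := by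
      rw [hL]; exact Nat.floor_le (by positivity)
    have h1 : ∑ t ∈ Icc 1 s, f t ≤ ∑ n ∈ Icc 1 L, (n.divisors.card : ℝ) * F n := by
      refine le_trans (Finset.sum_le_sum fun t ht => ?_)
        (Pool.Agent.N965.LN.FtlAux.outer_le F hF0 s L)
      rw [Finset.mem_Icc] at ht
      refine Pool.Agent.N965.LN.FtlAux.inner_le F hF0 t _ L ht.1 ?_
      refine (Nat.mul_le_mul_right t (hfl t ht.1 (ht.2.trans hs))).trans ?_
      rw [hL]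
      refine Nat.le_floor ?_
      push_cast
      have ht0 : (0 : ℝ) ≤ t := Nat.cast_nonneg t
      have hts : (t : ℝ) ≤ s := by exact_mod_cast ht.2
      have h2 : ((⌊(t : ℝ) * Y⌋₊ : ℕ) : ℝ) ≤ t * Y := Nat.floor_le (by positivity)
      calc ((⌊(t : ℝ) * Y⌋₊ : ℕ) : ℝ) * t ≤ (t * Y) * t := mul_le_mul_of_nonneg_right h2 ht0
        _ = Y * (t : ℝ) ^ 2 := by ring
        _ ≤ Y * (s : ℝ) ^ 2 :=
          mul_le_mul_of_nonneg_left (pow_le_pow_left₀ ht0 hts 2) hY0.le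
    refine h1.trans ?_
    rcases Nat.eq_zero_or_pos L with h0 | hLpos
    · rw [h0]
      have : (0 : ℝ) ≤ (C1 * C2 * Y ^ (1 + 2 * τ) * (N : ℝ) ^ (θ + τ)) * (s : ℝ) ^ (2 + 2 * (2 * τ)) := by
        positivity
      simpa using this
    have hL0 : (0 : ℝ) < L := by exact_mod_cast hLpos
    have h3 : ∑ n ∈ Icc 1 L, (n.divisors.card : ℝ) * F n ≤
        ∑ n ∈ Icc 1 L, (C1 * (L : ℝ) ^ τ) * F n := by
      refine Finset.sum_le_sum fun n hn => ?_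
      rw [Finset.mem_Icc] at hn
      refine mul_le_mul_of_nonneg_right ?_ (hF0 n)
      refine (hdiv n hn.1).trans ?_
      refine mul_le_mul_of_nonneg_left ?_ hC1.le
      exact Real.rpow_le_rpow (Nat.cast_nonneg _) (by exact_mod_cast hn.2) hτ.le
    refine h3.trans ?_
    rw [← Finset.mul_sum]
    have h4 := h2 N L hN hLpos
    have h5 : C1 * (L : ℝ) ^ τ * ∑ n ∈ Icc 1 L, F n ≤
        C1 * (L : ℝ) ^ τ * (C2 * ((N : ℝ) * L) ^ τ * L * (N : ℝ) ^ θ) :=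
      mul_le_mul_of_nonneg_left h4 (by positivity)
    refine h5.trans ?_
    have h6 : C1 * (L : ℝ) ^ τ * (C2 * ((N : ℝ) * L) ^ τ * L * (N : ℝ) ^ θ) =
        C1 * C2 * (N : ℝ) ^ (θ + τ) * (L : ℝ) ^ (1 + 2 * τ) := by
      rw [Real.mul_rpow hN0.le hL0.le, Real.rpow_add hN0,
        show (1 : ℝ) + 2 * τ = 1 + (τ + τ) by ring, Real.rpow_add hL0, Real.rpow_add hL0,
        Real.rpow_one]
      ring
    rw [h6]
    have h7 : (L : ℝ) ^ (1 + 2 * τ) ≤ Y ^ (1 + 2 * τ) * (s : ℝ) ^ (2 + 2 * (2 * τ)) := by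
      have h8 : (L : ℝ) ^ (1 + 2 * τ) ≤ (Y * (s : ℝ) ^ 2) ^ (1 + 2 * τ) :=
        Real.rpow_le_rpow hL0.le hL' (by positivity)
      refine h8.trans (le_of_eq ?_)
      rw [Real.mul_rpow hY0.le (by positivity), ← Real.rpow_natCast (s : ℝ) 2,
        ← Real.rpow_mul (Nat.cast_nonneg s)]
      congr 2
      push_cast
      ring
    calc C1 * C2 * (N : ℝ) ^ (θ + τ) * (L : ℝ) ^ (1 + 2 * τ)
        ≤ C1 * C2 * (N : ℝ) ^ (θ + τ) * (Y ^ (1 + 2 * τ) * (s : ℝ) ^ (2 + 2 * (2 * τ))) :=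
          mul_le_mul_of_nonneg_left h7 (by positivity)
      _ = _ := by ring
  have hps := Pool.Agent.N965.LN.t_PS f (C1 * C2 * Y ^ (1 + 2 * τ) * (N : ℝ) ^ (θ + τ)) (2 * τ) X hf0
    (by positivity) (by positivity) hsumf
  have h1 : ∑ t ∈ Icc 1 X, ψ t * f t ≤ Ψ * ∑ t ∈ Icc 1 X, f t / t := by
    rw [Finset.mul_sum]
    refine Finset.sum_le_sum fun t ht => ?_
    rw [mem_Icc] at ht
    have ht0 : (0 : ℝ) < t := by exact_mod_cast (show 0 < t by omega)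
    have h3 := hnψ t
    calc ψ t * f t = ((t : ℝ) * ψ t) * (f t / t) := by
          field_simp
      _ ≤ Ψ * (f t / t) := mul_le_mul_of_nonneg_right h3 (div_nonneg (hf0 t) ht0.le)
  refine h1.trans ((mul_le_mul_of_nonneg_left hps hΨ0.le).trans ?_)
  have e1 : Y ^ (1 + 2 * τ) = (X : ℝ) ^ (τ * (1 + 2 * τ)) * D' ^ (1 + 2 * τ) := by
    rw [hY, Real.mul_rpow (by positivity) hD'0.le, ← Real.rpow_mul hX0.le]
  rw [e1]
  have e2 : (X : ℝ) ^ (τ * (1 + 2 * τ)) * (X : ℝ) ^ (1 + 2 * (2 * τ)) ≤ (X : ℝ) ^ (1 + 7 * τ) := by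
    rw [← Real.rpow_add hX0]
    apply Real.rpow_le_rpow_of_exponent_le hX'
    nlinarith
  calc Ψ * (2 * (C1 * C2 * ((X : ℝ) ^ (τ * (1 + 2 * τ)) * D' ^ (1 + 2 * τ)) * (N : ℝ) ^ (θ + τ)) *
        (X : ℝ) ^ (1 + 2 * (2 * τ)))
      = 2 * Ψ * (C1 * C2 * D' ^ (1 + 2 * τ)) * (N : ℝ) ^ (θ + τ) *
        ((X : ℝ) ^ (τ * (1 + 2 * τ)) * (X : ℝ) ^ (1 + 2 * (2 * τ))) := by ring
    _ ≤ 2 * Ψ * (C1 * C2 * D' ^ (1 + 2 * τ)) * (N : ℝ) ^ (θ + τ) * (X : ℝ) ^ (1 + 7 * τ) :=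
        mul_le_mul_of_nonneg_left e2 (by positivity)

end Pool.Agent.Run7.h783.PL
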