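import Pool.Agent.Run7.h783.PL.Main

/-!
# Intervals and rational polynomials of any degree (helper783)
-/

set_option autoImplicit false

open Finset Filter Topology Polynomial

namespace Pool.Agent.Run7.h783.PL

/-- `|α - p / q| > ψ(q) / q` for all integers `p` and all positive integers `q` with `Q ≤ q ≤ X`. -/
def Khintchine (Q : ℕ) (X : ℝ) (ψ : ℕ → ℝ) (α : ℝ) : Prop :=
  ∀ (p : ℤ) (q : ℕ), 1 ≤ q → Q ≤ q → (q : ℝ) ≤ X → ψ q / q < |α - (p : ℝ) / q|

/-- The number of the integers `M < n ≤ M + N` for which `F n` does not have the property `P`. -/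
noncomputable def exceptions (F : ℤ → ℝ) (M : ℤ) (N : ℕ) (P : ℝ → Prop) : ℕ :=
  {n : ℤ | M < n ∧ n ≤ M + N ∧ ¬ P (F n)}.ncard

/-- the polynomial on a residue class -/
theorem lin_coeff (k : ℕ) (g : ℝ[X]) (ξ : ℝ) (hξ : ξ ≠ 0) (hg : g.natDegree ≤ k + 1)
    (hc : g.coeff (k + 1) = ξ) (b c v : ℝ) (hb : b ≠ 0) :
    (g.comp (C b * X + C c) + C v).natDegree ≤ k + 1 ∧
      (g.comp (C b * X + C c) + C v).coeff (k + 1) = b ^ (k + 1) * ξ := by
  have hd : g.natDegree = k + 1 := by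
    refine le_antisymm hg (le_natDegree_of_ne_zero ?_)
    rw [hc]
    exact hξ
  have h1 : (C b * X + C c : ℝ[X]).natDegree = 1 := natDegree_linear hb
  constructor
  · refine (natDegree_add_le _ _).trans (max_le ?_ ?_)
    · refine natDegree_comp_le.trans ?_
      rw [hd, h1, mul_one]
    · rw [natDegree_C]
      omega
  · have h2 := coeff_comp_degree_mul_degree (p := g) (q := C b * X + C c) (by rw [h1]; norm_num)
    rw [h1, hd, mul_one, leadingCoeff_linear hb, leadingCoeff, hd, hc] at h2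
    rw [coeff_add, h2, coeff_C_succ, add_zero]
    ring

theorem ext (ξ : ℝ) (hirr : Irrational ξ) (k : ℕ) (b : ℕ) (hb : 1 ≤ b)
    (hR : Roth ((b : ℝ) ^ (k + 1) * ξ)) (κ : ℝ) (hκ : κ < 1 / (2 : ℝ) ^ k)
    (ψ : ℕ → ℝ) (hψ0 : ∀ n, 0 ≤ ψ n) (hψ : Antitone ψ) (hs : Summable ψ) (Q : ℕ) (hQ : 1 ≤ Q) (δ : ℝ)
    (hδ : 0 < δ) :
    ∃ N₀ : ℕ, ∀ g : ℝ[X], g.natDegree ≤ k + 1 → g.coeff (k + 1) = ξ → ∀ (H : ℤ[X]) (M : ℤ) (N : ℕ),
      N₀ ≤ N → (exceptions (fun n => g.eval (n : ℝ) + ((H.eval n : ℤ) : ℝ) / b) M N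
        (Khintchine Q ((N : ℝ) ^ κ) ψ) : ℝ) ≤ (10 * ∑' n, ψ (n + Q) + δ) * N := by
  classical
  have hb0 : (0 : ℝ) < b := by exact_mod_cast (show 0 < b by omega)
  have hb1 : (1 : ℝ) ≤ b := by exact_mod_cast hb
  have hirr' : Irrational ((b : ℝ) ^ (k + 1) * ξ) := by
    have h1 := hirr.natCast_mul (m := b ^ (k + 1)) (by positivity)
    push_cast at h1
    exact h1
  set κ₁ := max κ 0 with hκ₁
  have hκ₁0 : 0 ≤ κ₁ := le_max_right _ _
  have hκκ : κ ≤ κ₁ := le_max_left _ _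
  have hκ₁m : κ₁ < 1 / (2 : ℝ) ^ k := max_lt hκ (by positivity)
  set κ₂ := (κ₁ + 1 / (2 : ℝ) ^ k) / 2 with hκ₂
  have hκ₂1 : κ₁ < κ₂ := by
    rw [hκ₂]
    linarith
  have hκ₂2 : κ₂ < 1 / (2 : ℝ) ^ k := by
    rw [hκ₂]
    linarith
  have hκ₂0 : 0 < κ₂ := lt_of_le_of_lt hκ₁0 hκ₂1
  set S := ∑' n, ψ (n + Q) with hS
  have hS0 : 0 ≤ S := tsum_nonneg fun n => hψ0 _
  obtain ⟨N₁, hN₁⟩ := main _ hirr' hR k κ₂ hκ₂2 ψ hψ0 hψ hs Q hQ (δ / 2) (by linarith)
  obtain ⟨N₂, hN₂⟩ : ∃ N₂ : ℕ, ∀ N : ℕ, N₂ ≤ N → (b : ℝ) ^ κ₂ ≤ (N : ℝ) ^ (κ₂ - κ₁) := by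
    have h1 := ((tendsto_rpow_atTop (show 0 < κ₂ - κ₁ by linarith)).comp
      tendsto_natCast_atTop_atTop).eventually_ge_atTop ((b : ℝ) ^ κ₂)
    exact Filter.eventually_atTop.1 h1
  obtain ⟨N₃, hN₃⟩ := exists_nat_ge ((10 * S + δ / 2) * b / (δ / 2))
  refine ⟨max (max (b * N₁) N₂) (max N₃ 1), fun g hg hc H M N hN => ?_⟩
  have hNa : b * N₁ ≤ N := (le_max_left _ _).trans ((le_max_left _ _).trans hN)
  have hNb : N₂ ≤ N := (le_max_right _ _).trans ((le_max_left _ _).trans hN)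
  have hNc : N₃ ≤ N := (le_max_left _ _).trans ((le_max_right _ _).trans hN)
  have hNd : 1 ≤ N := (le_max_right _ _).trans ((le_max_right _ _).trans hN)
  have hN1 : (1 : ℝ) ≤ N := by exact_mod_cast hNd
  have hN0 : (0 : ℝ) < N := by linarith
  set N' : ℕ := N / b + 1 with hN'
  have hN'1 : N₁ ≤ N' := by
    have : N₁ ≤ N / b := (Nat.le_div_iff_mul_le (by omega)).2 (by rw [mul_comm]; exact hNa)
    omega
  have hN'2 : (N : ℝ) / b ≤ N' := by
    rw [div_le_iff₀ hb0]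
    have h1 : N < b * (N / b + 1) := Nat.lt_mul_div_succ N (by omega)
    have h2 : N ≤ N' * b := by
      rw [mul_comm]
      exact h1.le
    exact_mod_cast h2
  have hN'3 : (b : ℝ) * N' ≤ N + b := by
    have h1 : b * N' ≤ N + b := by
      rw [hN', mul_add, mul_one]
      have := Nat.mul_div_le N b
      omega
    exact_mod_cast h1
  set Y : ℝ := (N' : ℝ) ^ κ₂ with hY
  have hYN : (N : ℝ) ^ κ ≤ Y := by
    have h1 : (N : ℝ) ^ κ ≤ (N : ℝ) ^ κ₁ := Real.rpow_le_rpow_of_exponent_le hN1 hκκ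
    have h2 : ((N : ℝ) / b) ^ κ₂ ≤ Y := Real.rpow_le_rpow (by positivity) hN'2 hκ₂0.le
    have h3 : (N : ℝ) ^ κ₁ ≤ ((N : ℝ) / b) ^ κ₂ := by
      rw [Real.div_rpow hN0.le hb0.le, le_div_iff₀ (by positivity)]
      have h4 := hN₂ N hNb
      calc (N : ℝ) ^ κ₁ * (b : ℝ) ^ κ₂ ≤ (N : ℝ) ^ κ₁ * (N : ℝ) ^ (κ₂ - κ₁) :=
            mul_le_mul_of_nonneg_left h4 (by positivity)
        _ = (N : ℝ) ^ κ₂ := by
            rw [← Real.rpow_add hN0]
            congr 1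
            ring
    exact h1.trans (h3.trans h2)
  -- the polynomials on the residue classes
  set c : ℕ → ℤ := fun r => M + 1 + r with hcdef
  set f : ℕ → ℝ[X] := fun r => g.comp (C (b : ℝ) * X + C ((c r : ℤ) : ℝ)) +
    C (((H.eval (c r) : ℤ) : ℝ) / b) with hf
  have hfp : ∀ r, (f r).natDegree ≤ k + 1 ∧ (f r).coeff (k + 1) = (b : ℝ) ^ (k + 1) * ξ :=
    fun r => lin_coeff k g ξ hirr.ne_zero hg hc b _ _ hb0.ne'
  have hev : ∀ (r m : ℕ), ∃ z : ℤ, g.eval (((c r + b * m : ℤ)) : ℝ) +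
      ((H.eval (c r + b * m) : ℤ) : ℝ) / b = (f r).eval (m : ℝ) + z := by
    intro r m
    obtain ⟨z, hz⟩ := sub_dvd_eval_sub (c r + b * m) (c r) H
    refine ⟨m * z, ?_⟩
    have h1 : H.eval (c r + b * m) = H.eval (c r) + b * m * z := by
      have : c r + b * m - c r = b * m := by ring
      rw [this] at hz
      linarith
    rw [h1]
    simp only [hf]
    rw [eval_add, eval_comp, eval_add, eval_mul, eval_C, eval_X, eval_C, eval_C]
    have h2 : ((c r + b * m : ℤ) : ℝ) = (b : ℝ) * (m : ℝ) + ((c r : ℤ) : ℝ) := by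
      push_cast
      ring
    rw [h2]
    push_cast
    field_simp
    ring
  have hsub : {n : ℤ | M < n ∧ n ≤ M + N ∧ ¬ Khintchine Q ((N : ℝ) ^ κ) ψ
      (g.eval (n : ℝ) + ((H.eval n : ℤ) : ℝ) / b)} ⊆
      (((range b).biUnion fun r => (Fail (f r) ψ Q Y N').image fun m : ℕ => c r + b * m :
        Finset ℤ) : Set ℤ) := by
    rintro n ⟨h1, h2, h3⟩
    obtain ⟨t, ht⟩ : ∃ t : ℕ, (t : ℤ) = n - M - 1 := ⟨(n - M - 1).toNat, by omega⟩
    have htN : t < N := by omega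
    have hn : n = c (t % b) + b * ((t / b : ℕ) : ℤ) := by
      have h4 : (t : ℤ) = ((t % b : ℕ) : ℤ) + b * ((t / b : ℕ) : ℤ) := by
        exact_mod_cast (Nat.mod_add_div t b).symm
      simp only [hcdef]
      linarith
    rw [Finset.mem_coe, Finset.mem_biUnion]
    refine ⟨t % b, mem_range.2 (Nat.mod_lt _ (by omega)), ?_⟩
    rw [Finset.mem_image]
    refine ⟨t / b, ?_, hn.symm⟩
    obtain ⟨z, hz⟩ := hev (t % b) (t / b)
    unfold Fail
    rw [mem_filter, mem_range]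
    refine ⟨?_, ?_⟩
    · rw [hN']
      have := Nat.div_le_div_right (c := b) htN.le
      omega
    · unfold Khintchine at h3
      push Not at h3
      obtain ⟨p, q, hq1, hqQ, hqX, hle⟩ := h3
      refine ⟨p - z * q, q, hq1, hqQ, hqX.trans hYN, ?_⟩
      have hq0 : (q : ℝ) ≠ 0 := by
        have : (0 : ℝ) < q := by exact_mod_cast (show 0 < q by omega)
        exact this.ne'
      have h5 : (f (t % b)).eval ((t / b : ℕ) : ℝ) - ((p - z * q : ℤ) : ℝ) / q =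
          g.eval (n : ℝ) + ((H.eval n : ℤ) : ℝ) / b - (p : ℝ) / q := by
        have h6 : g.eval (n : ℝ) + ((H.eval n : ℤ) : ℝ) / b =
            (f (t % b)).eval ((t / b : ℕ) : ℝ) + z := by
          rw [← hz]
          rw [← hn]
        rw [h6]
        push_cast
        field_simp
        ring
      rw [h5]
      exact hle
  have hcard : (exceptions (fun n => g.eval (n : ℝ) + ((H.eval n : ℤ) : ℝ) / b) M N
        (Khintchine Q ((N : ℝ) ^ κ) ψ) : ℝ) ≤ ∑ r ∈ range b, ((Fail (f r) ψ Q Y N').card : ℝ) := by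
    have h1 := Set.ncard_le_ncard hsub (Finset.finite_toSet _)
    rw [Set.ncard_coe_finset] at h1
    have h2 : exceptions (fun n => g.eval (n : ℝ) + ((H.eval n : ℤ) : ℝ) / b) M N
        (Khintchine Q ((N : ℝ) ^ κ) ψ) ≤ ∑ r ∈ range b, (Fail (f r) ψ Q Y N').card :=
      h1.trans (Finset.card_biUnion_le.trans (Finset.sum_le_sum fun r _ => Finset.card_image_le))
    exact_mod_cast h2
  refine hcard.trans ?_
  have h1 : ∀ r ∈ range b, ((Fail (f r) ψ Q Y N').card : ℝ) ≤ (10 * S + δ / 2) * N' :=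
    fun r _ => hN₁ (f r) (hfp r).1 (hfp r).2 N' hN'1
  refine (Finset.sum_le_sum h1).trans ?_
  rw [Finset.sum_const, card_range, nsmul_eq_mul]
  have h2 : (b : ℝ) * ((10 * S + δ / 2) * N') = (10 * S + δ / 2) * (b * N') := by ring
  rw [h2]
  have h3 : (10 * S + δ / 2) * b ≤ (N : ℝ) * (δ / 2) := by
    have h4 : (10 * S + δ / 2) * b / (δ / 2) ≤ N := hN₃.trans (by exact_mod_cast hNc)
    rwa [div_le_iff₀ (by positivity)] at h4
  have h4 : (10 * S + δ / 2) * (b * N') ≤ (10 * S + δ / 2) * (N + b) :=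
    mul_le_mul_of_nonneg_left hN'3 (by positivity)
  nlinarith

end Pool.Agent.Run7.h783.PL
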