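import Pool.Agent.Run7.h783.PL.Err

/-!
# Rational approximations of the values of polynomials (helper783)
-/

set_option autoImplicit false

open Finset Filter Topology Polynomial

namespace Pool.Agent.Run7.h783.PL

open Pool.Agent.N965.LN (dn)

open Classical in
/-- the integers `0 ≤ n < N` for which `f n` has a good approximation of denominator in `[Q, X]` -/
noncomputable def Fail (f : ℝ[X]) (ψ : ℕ → ℝ) (Q : ℕ) (X : ℝ) (N : ℕ) : Finset ℕ :=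
  (range N).filter fun n => ∃ (p : ℤ) (q : ℕ), 1 ≤ q ∧ Q ≤ q ∧ (q : ℝ) ≤ X ∧
    |f.eval (n : ℝ) - (p : ℝ) / q| ≤ ψ q / q

/-- the integers with `q f(n)` near an integer -/
noncomputable def Sq (f : ℝ[X]) (N q : ℕ) (δ : ℝ) : Finset ℕ :=
  (range N).filter fun n => dn ((q : ℝ) * f.eval (n : ℝ)) ≤ δ

/-- the count for one `q` -/
theorem card_one (ξ : ℝ) (hirr : Irrational ξ) (k : ℕ) (f : ℝ[X]) (hf : f.natDegree ≤ k + 1)
    (hc : f.coeff (k + 1) = ξ) (N q : ℕ) (hq : 1 ≤ q) (δ : ℝ) (hδ : 0 < δ) :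
    ((Sq f N q δ).card : ℝ) ≤ 10 * δ * N +
      20 * δ * ∑ v ∈ Icc 1 ⌊1 / (2 * δ)⌋₊, BW k N (((v * q : ℕ) : ℝ) * ξ) := by
  have h1 := count (fun n => (q : ℝ) * f.eval (n : ℝ)) N δ hδ
  unfold Sq
  refine h1.trans (add_le_add le_rfl (mul_le_mul_of_nonneg_left ?_ (by positivity)))
  refine Finset.sum_le_sum fun v hv => ?_
  rw [mem_Icc] at hv
  have h2 : ∀ n : ℕ, Pool.Agent.H520R3.e ((v : ℝ) * ((q : ℝ) * f.eval (n : ℝ))) =
      Pool.Agent.H520R3.e ((C (((v * q : ℕ) : ℝ)) * f).eval (n : ℝ)) := by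
    intro n
    rw [eval_mul, eval_C]
    congr 1
    push_cast
    ring
  simp only [h2]
  have h3 : 0 < v * q := Nat.mul_pos (by omega) (by omega)
  refine weyl k N _ (hirr.natCast_mul h3.ne') _ ((natDegree_C_mul_le _ _).trans hf) ?_ N le_rfl
  rw [coeff_C_mul, hc]

theorem fail_sub (f : ℝ[X]) (ψ ψ' : ℕ → ℝ) (hψ : ∀ n, ψ n ≤ ψ' n) (Q : ℕ) (Y : ℝ) (X N : ℕ)
    (hX : ⌊Y⌋₊ ≤ X) : Fail f ψ Q Y N ⊆ (Icc Q X).biUnion fun q => Sq f N q (ψ' q) := by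
  classical
  intro n hn
  unfold Fail at hn
  rw [mem_filter] at hn
  obtain ⟨h1, p, q, h2, h3, h4, h5⟩ := hn
  rw [Finset.mem_biUnion]
  refine ⟨q, mem_Icc.2 ⟨h3, (Nat.le_floor h4).trans hX⟩, ?_⟩
  unfold Sq
  rw [mem_filter]
  refine ⟨h1, ?_⟩
  have hq : (0 : ℝ) < q := by exact_mod_cast h2
  refine (round_le _ p).trans ?_
  have h9 : (q : ℝ) * f.eval (n : ℝ) - p = q * (f.eval (n : ℝ) - (p : ℝ) / q) := by
    field_simp
  rw [h9, abs_mul, abs_of_pos hq]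
  have h10 := mul_le_mul_of_nonneg_left h5 hq.le
  refine h10.trans (le_trans (le_of_eq ?_) (hψ q))
  field_simp

theorem tail_sum (f : ℕ → ℝ) (hf : ∀ n, 0 ≤ f n) (hs : Summable f) (Q X : ℕ) :
    ∑ q ∈ Icc Q X, f q ≤ ∑' n, f (n + Q) := by
  have h1 : Summable fun n => f (n + Q) := (summable_nat_add_iff Q).2 hs
  have h2 : ∑ q ∈ Icc Q X, f q = ∑ i ∈ range (X + 1 - Q), f (i + Q) := by
    rw [Finset.range_eq_Ico, Finset.sum_Ico_add' f 0 (X + 1 - Q) Q]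
    apply Finset.sum_congr
    · ext x
      simp only [mem_Icc, mem_Ico]
      omega
    · intro _ _; rfl
  rw [h2]
  exact h1.sum_le_tsum _ fun n _ => hf _

/-- **Main theorem** on `0 ≤ n < N`. -/
theorem main (ξ : ℝ) (hirr : Irrational ξ) (hR : Roth ξ) (k : ℕ) (κ : ℝ) (hκ : κ < 1 / (2 : ℝ) ^ k)
    (ψ : ℕ → ℝ) (hψ0 : ∀ n, 0 ≤ ψ n) (hψ : Antitone ψ) (hs : Summable ψ) (Q : ℕ) (hQ : 1 ≤ Q) (δ : ℝ)
    (hδ : 0 < δ) :
    ∃ N₀ : ℕ, ∀ f : ℝ[X], f.natDegree ≤ k + 1 → f.coeff (k + 1) = ξ → ∀ N : ℕ, N₀ ≤ N →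
      ((Fail f ψ Q ((N : ℝ) ^ κ) N).card : ℝ) ≤ (10 * ∑' n, ψ (n + Q) + δ) * N := by
  set κ' := max κ 0 with hκ'
  have hκ0 : 0 ≤ κ' := le_max_right _ _
  have hκκ : κ ≤ κ' := le_max_left _ _
  have hκm : κ' < 1 / (2 : ℝ) ^ k := max_lt hκ (by positivity)
  set g : ℝ := 1 / (2 : ℝ) ^ k - κ' with hg
  have hg0 : 0 < g := by
    rw [hg]
    linarith
  set τ := min 1 (g / (2 * (1 + 7 * κ'))) with hτ
  have hτ0 : 0 < τ := lt_min one_pos (div_pos hg0 (by positivity))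
  have hτ1 : τ ≤ 1 := min_le_left _ _
  have hτ2 : τ * (1 + 7 * κ') ≤ g / 2 := by
    have h1 : τ ≤ g / (2 * (1 + 7 * κ')) := min_le_right _ _
    have h2 : 0 < 1 + 7 * κ' := by positivity
    calc τ * (1 + 7 * κ') ≤ g / (2 * (1 + 7 * κ')) * (1 + 7 * κ') :=
          mul_le_mul_of_nonneg_right h1 h2.le
      _ = g / 2 := by field_simp
  set e := 1 - g / 2 with he
  have he1 : (1 - 1 / (2 : ℝ) ^ k + τ) + κ' * (1 + 7 * τ) ≤ e := by
    have : (1 - 1 / (2 : ℝ) ^ k + τ) + κ' * (1 + 7 * τ) = 1 - g + τ * (1 + 7 * κ') := by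
      rw [hg]
      ring
    rw [this, he]
    linarith
  have he2 : 0 < 1 - e := by
    rw [he]
    linarith
  -- the auxiliary function
  set φ₀ : ℕ → ℝ := fun n => ((n : ℝ) + 1) ^ (-(1 + τ)) with hf
  have hf0 : ∀ n, 0 < φ₀ n := fun n => by
    simp only [hf]
    positivity
  have hfa : Antitone φ₀ := by
    intro a b hab
    simp only [hf]
    apply Real.rpow_le_rpow_of_nonpos (by positivity) _ (by linarith)
    have : (a : ℝ) ≤ b := by exact_mod_cast hab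
    linarith
  have hfs : Summable φ₀ := by
    have h1 : Summable (fun n : ℕ => ((n : ℝ)) ^ (-(1 + τ))) :=
      Real.summable_nat_rpow.2 (by linarith)
    have h2 := (summable_nat_add_iff 1).2 h1
    refine h2.congr fun n => ?_
    simp only [hf]
    push_cast
    rfl
  set F := ∑' n, φ₀ n with hF
  have hF0 : 0 < F := hfs.tsum_pos (fun n => (hf0 n).le) 0 (hf0 0)
  set c₀ : ℝ := δ / (2 * 10 * F) with hc₀
  have hc₀0 : 0 < c₀ := by positivity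
  set φ : ℕ → ℝ := fun n => c₀ * φ₀ n with hφ
  have hφ0 : ∀ n, 0 < φ n := fun n => mul_pos hc₀0 (hf0 n)
  have hφa : Antitone φ := fun a b hab => mul_le_mul_of_nonneg_left (hfa hab) hc₀0.le
  have hφs : Summable φ := hfs.mul_left c₀
  set ψ' : ℕ → ℝ := fun n => ψ n + φ n with hψ'
  have hψ'0 : ∀ n, 0 < ψ' n := fun n => by
    have h1 := hφ0 n
    have h2 := hψ0 n
    simp only [hψ']
    linarith
  have hle : ∀ n, ψ n ≤ ψ' n := fun n => by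
    have h1 := hφ0 n
    simp only [hψ']
    linarith
  have hψ'a : Antitone ψ' := fun a b hab => add_le_add (hψ hab) (hφa hab)
  have hψ's : Summable ψ' := hs.add hφs
  have hD : ∀ n : ℕ, 1 ≤ n → (n : ℝ) ^ (-(1 + τ)) ≤ ((2 : ℝ) ^ (1 + τ) / c₀) * ψ' n := by
    intro n hn
    have hn' : (1 : ℝ) ≤ n := by exact_mod_cast hn
    have h1 : (2 * (n : ℝ)) ^ (-(1 + τ)) ≤ φ₀ n := by
      simp only [hf]
      exact Real.rpow_le_rpow_of_nonpos (by positivity) (by linarith) (by linarith)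
    have h2 : (2 * (n : ℝ)) ^ (-(1 + τ)) = (2 : ℝ) ^ (-(1 + τ)) * (n : ℝ) ^ (-(1 + τ)) :=
      Real.mul_rpow (by norm_num) (by positivity)
    have h3 : (2 : ℝ) ^ (1 + τ) * (2 : ℝ) ^ (-(1 + τ)) = 1 := by
      rw [← Real.rpow_add (by norm_num)]
      simp
    have h4 : (0 : ℝ) < (2 : ℝ) ^ (1 + τ) := by positivity
    have h5 : φ₀ n = (1 / c₀) * φ n := by
      simp only [hφ]
      field_simp
    calc (n : ℝ) ^ (-(1 + τ)) = (2 : ℝ) ^ (1 + τ) * (2 * (n : ℝ)) ^ (-(1 + τ)) := by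
          rw [h2, ← mul_assoc, h3, one_mul]
      _ ≤ (2 : ℝ) ^ (1 + τ) * φ₀ n := mul_le_mul_of_nonneg_left h1 h4.le
      _ = ((2 : ℝ) ^ (1 + τ) / c₀) * φ n := by rw [h5]; ring
      _ ≤ ((2 : ℝ) ^ (1 + τ) / c₀) * ψ' n := by
          refine mul_le_mul_of_nonneg_left ?_ (by positivity)
          have := hψ0 n
          simp only [hψ']
          linarith
  obtain ⟨C, hC, hE⟩ := err ξ hR k τ hτ0 hτ1 ψ' hψ'0 hψ'a hψ's ((2 : ℝ) ^ (1 + τ) / c₀)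
    (by positivity) hD
  obtain ⟨N₀, hN₀⟩ : ∃ N₀ : ℕ, ∀ N : ℕ, N₀ ≤ N →
      20 * C / (δ / 2) ≤ (N : ℝ) ^ (1 - e) := by
    have h1 := ((tendsto_rpow_atTop he2).comp tendsto_natCast_atTop_atTop).eventually_ge_atTop
      (20 * C / (δ / 2))
    exact Filter.eventually_atTop.1 h1
  refine ⟨max N₀ 1, fun f hfd hfc N hNN => ?_⟩
  have hle0 : N₀ ≤ N := (le_max_left _ _).trans hNN
  have hN : 1 ≤ N := (le_max_right _ _).trans hNN
  have hN' : (1 : ℝ) ≤ N := by exact_mod_cast hN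
  have hNp : (0 : ℝ) < N := by linarith
  set X := ⌊(N : ℝ) ^ κ'⌋₊ with hX
  have hX1 : 1 ≤ X := by
    apply Nat.le_floor
    rw [Nat.cast_one]
    exact Real.one_le_rpow hN' hκ0
  have hXle : (X : ℝ) ≤ (N : ℝ) ^ κ' := Nat.floor_le (by positivity)
  have hXX : ⌊(N : ℝ) ^ κ⌋₊ ≤ X := Nat.floor_le_floor (Real.rpow_le_rpow_of_exponent_le hN' hκκ)
  have h1 : ((Fail f ψ Q ((N : ℝ) ^ κ) N).card : ℝ) ≤ ∑ q ∈ Icc Q X, ((Sq f N q (ψ' q)).card : ℝ) := by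
    have h := (Finset.card_le_card (fail_sub f ψ ψ' hle Q ((N : ℝ) ^ κ) X N hXX)).trans
      Finset.card_biUnion_le
    exact_mod_cast h
  have h2 : ∑ q ∈ Icc Q X, ((Sq f N q (ψ' q)).card : ℝ) ≤
      ∑ q ∈ Icc Q X, (10 * ψ' q * N) + 20 * ∑ q ∈ Icc 1 X, ψ' q *
        ∑ v ∈ Icc 1 ⌊1 / (2 * ψ' q)⌋₊, BW k N (((v * q : ℕ) : ℝ) * ξ) := by
    have h3 : ∑ q ∈ Icc Q X, ((Sq f N q (ψ' q)).card : ℝ) ≤
        ∑ q ∈ Icc Q X, (10 * ψ' q * N + 20 * (ψ' q *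
        ∑ v ∈ Icc 1 ⌊1 / (2 * ψ' q)⌋₊, BW k N (((v * q : ℕ) : ℝ) * ξ))) := by
      refine Finset.sum_le_sum fun q hq => ?_
      rw [mem_Icc] at hq
      refine (card_one ξ hirr k f hfd hfc N q (hQ.trans hq.1) (ψ' q) (hψ'0 q)).trans (le_of_eq ?_)
      ring
    refine h3.trans ?_
    rw [Finset.sum_add_distrib, ← Finset.mul_sum]
    refine add_le_add le_rfl (mul_le_mul_of_nonneg_left ?_ (by norm_num))
    refine Finset.sum_le_sum_of_subset_of_nonneg ?_ fun q _ _ => ?_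
    · exact Finset.Icc_subset_Icc hQ le_rfl
    · exact mul_nonneg (hψ'0 q).le (Finset.sum_nonneg fun _ _ => BW_nonneg _ _ _)
  have h3 : ∑ q ∈ Icc Q X, (10 * ψ' q * (N : ℝ)) ≤
      (10 * ∑' n, ψ (n + Q) + δ / 2) * (N : ℝ) := by
    have h4 : ∑ q ∈ Icc Q X, (10 * ψ' q * (N : ℝ)) =
        10 * (∑ q ∈ Icc Q X, ψ q + ∑ q ∈ Icc Q X, φ q) * (N : ℝ) := by
      rw [← Finset.sum_add_distrib, Finset.mul_sum, Finset.sum_mul]
    rw [h4]
    have h5 := tail_sum ψ hψ0 hs Q X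
    have h6 : ∑ q ∈ Icc Q X, φ q ≤ c₀ * F := by
      refine (hφs.sum_le_tsum _ fun n _ => (hφ0 n).le).trans (le_of_eq ?_)
      simp only [hφ]
      rw [tsum_mul_left]
    have h7 : 10 * (c₀ * F) = δ / 2 := by
      rw [hc₀]
      field_simp
      try ring
    have h8 : 10 * (∑ q ∈ Icc Q X, ψ q + ∑ q ∈ Icc Q X, φ q) ≤ 10 * ∑' n, ψ (n + Q) + δ / 2 := by
      rw [← h7, ← mul_add]
      exact mul_le_mul_of_nonneg_left (add_le_add h5 h6) (by norm_num)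
    exact mul_le_mul_of_nonneg_right h8 (by positivity)
  have h4 := hE N X hN hX1
  have h5 : (X : ℝ) ^ (1 + 7 * τ) ≤ (N : ℝ) ^ (κ' * (1 + 7 * τ)) := by
    rw [Real.rpow_mul hNp.le]
    exact Real.rpow_le_rpow (by positivity) hXle (by positivity)
  have h6 : C * (N : ℝ) ^ (1 - 1 / (2 : ℝ) ^ k + τ) * (X : ℝ) ^ (1 + 7 * τ) ≤ C * (N : ℝ) ^ e := by
    calc C * (N : ℝ) ^ (1 - 1 / (2 : ℝ) ^ k + τ) * (X : ℝ) ^ (1 + 7 * τ) ≤
          C * (N : ℝ) ^ (1 - 1 / (2 : ℝ) ^ k + τ) * (N : ℝ) ^ (κ' * (1 + 7 * τ)) :=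
          mul_le_mul_of_nonneg_left h5 (by positivity)
      _ = C * (N : ℝ) ^ ((1 - 1 / (2 : ℝ) ^ k + τ) + κ' * (1 + 7 * τ)) := by
          rw [Real.rpow_add hNp (1 - 1 / (2 : ℝ) ^ k + τ), mul_assoc]
      _ ≤ C * (N : ℝ) ^ e :=
          mul_le_mul_of_nonneg_left (Real.rpow_le_rpow_of_exponent_le hN' he1) hC.le
  have h7 : 20 * (C * (N : ℝ) ^ e) ≤ δ / 2 * (N : ℝ) := by
    have h8 := hN₀ N hle0
    rw [div_le_iff₀ (by positivity)] at h8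
    have h9 : (N : ℝ) = (N : ℝ) ^ (1 - e) * (N : ℝ) ^ e := by
      rw [← Real.rpow_add hNp, sub_add_cancel, Real.rpow_one]
    have h10 : (0 : ℝ) ≤ (N : ℝ) ^ e := by positivity
    calc 20 * (C * (N : ℝ) ^ e) = (20 * C) * (N : ℝ) ^ e := by ring
      _ ≤ ((N : ℝ) ^ (1 - e) * (δ / 2)) * (N : ℝ) ^ e :=
          mul_le_mul_of_nonneg_right h8 h10
      _ = δ / 2 * ((N : ℝ) ^ (1 - e) * (N : ℝ) ^ e) := by ring
      _ = δ / 2 * (N : ℝ) := by rw [← h9]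
  have h8 : 20 * ∑ q ∈ Icc 1 X, ψ' q *
        ∑ v ∈ Icc 1 ⌊1 / (2 * ψ' q)⌋₊, BW k N (((v * q : ℕ) : ℝ) * ξ) ≤
      δ / 2 * (N : ℝ) := (mul_le_mul_of_nonneg_left (h4.trans h6) (by norm_num)).trans h7
  calc ((Fail f ψ Q ((N : ℝ) ^ κ) N).card : ℝ) ≤
        (10 * ∑' n, ψ (n + Q) + δ / 2) * (N : ℝ) + δ / 2 * (N : ℝ) :=
        h1.trans (h2.trans (add_le_add h3 h8))
    _ = _ := by ring

end Pool.Agent.Run7.h783.PL
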