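import Pool.Agent.H520R3.Weyl
import Pool.Agent.N965.LN.Stm

/-!
# Weyl sums: a recursive bound which only depends on the leading coefficient (helper783)
-/

set_option autoImplicit false

open Finset Polynomial

namespace Pool.Agent.Run7.h783.PL

open Pool.Agent.H520R3 (e norm_e e_add e_neg diff_ineq geom_bound)
open Pool.Agent.N965.LN (dn)

/-- the bound for the Weyl sums of degree `k + 1` with the leading coefficient `α` -/
noncomputable def BW : ℕ → ℕ → ℝ → ℝ
  | 0, _, α => 1 / dn α
  | k + 1, N, α => Real.sqrt (2 * ((N : ℝ) + ∑ h ∈ Ico 1 N, BW k N ((((k + 2) * h : ℕ) : ℝ) * α)))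

theorem BW_nonneg (k N : ℕ) (α : ℝ) : 0 ≤ BW k N α := by
  cases k with
  | zero =>
    unfold BW
    exact div_nonneg zero_le_one (abs_nonneg _)
  | succ k =>
    unfold BW
    exact Real.sqrt_nonneg _

/-- the coefficients of the difference -/
theorem diff_coeff (k : ℕ) (f : ℝ[X]) (hf : f.natDegree ≤ k + 2) (h : ℝ) :
    (taylor h f - f).natDegree ≤ k + 1 ∧
      (taylor h f - f).coeff (k + 1) = (k + 2) * h * f.coeff (k + 2) := by
  constructor
  · rw [Polynomial.natDegree_le_iff_coeff_eq_zero]
    intro n hn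
    rw [coeff_sub, taylor_coeff]
    rcases Nat.lt_or_ge (k + 2) n with h1 | h1
    · rw [hasseDeriv_eq_zero_of_lt_natDegree f n (by omega), eval_zero,
        coeff_eq_zero_of_natDegree_lt (by omega), sub_zero]
    · have hn' : n = k + 2 := by omega
      subst hn'
      have h2 : (hasseDeriv (k + 2) f).natDegree ≤ 0 := by
        have := natDegree_hasseDeriv_le f (k + 2)
        omega
      rw [eq_C_of_natDegree_le_zero h2, eval_C, hasseDeriv_coeff]
      simp
  · rw [coeff_sub, taylor_coeff]
    have h2 : (hasseDeriv (k + 1) f).natDegree < 2 := by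
      have := natDegree_hasseDeriv_le f (k + 1)
      omega
    rw [eval_eq_sum_range' h2, Finset.sum_range_succ, Finset.sum_range_one, hasseDeriv_coeff,
      hasseDeriv_coeff]
    have h3 : (1 + (k + 1)).choose (k + 1) = k + 2 := by
      rw [show 1 + (k + 1) = (k + 1) + 1 by ring, Nat.choose_succ_self_right]
    rw [h3]
    have h4 : (0 + (k + 1)).choose (k + 1) = 1 := by
      rw [zero_add, Nat.choose_self]
    rw [h4, zero_add, show 1 + (k + 1) = k + 2 by ring]
    push_cast
    ring

/-- **Weyl's inequality**, recursive form -/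
theorem weyl (k : ℕ) : ∀ (N : ℕ) (α : ℝ), Irrational α → ∀ f : ℝ[X], f.natDegree ≤ k + 1 →
    f.coeff (k + 1) = α → ∀ M : ℕ, M ≤ N → ‖∑ x ∈ range M, e (f.eval (x : ℝ))‖ ≤ BW k N α := by
  induction k with
  | zero =>
    intro N α hα f hf hc M _
    have hdn : 0 < dn α := by
      unfold dn
      rw [abs_pos]
      intro h
      exact hα.ne_int (round α) (by linarith)
    have h1 : ∀ x : ℕ, e (f.eval (x : ℝ)) = e (f.coeff 0) * e (α * x) := by
      intro x
      rw [← e_add, eval_eq_sum_range' (show f.natDegree < 2 by omega), Finset.sum_range_succ,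
        Finset.sum_range_one]
      congr 1
      rw [zero_add] at hc
      rw [hc]
      ring
    simp only [h1]
    rw [← Finset.mul_sum, norm_mul, norm_e, one_mul]
    have h2 := geom_bound (x := α) (κ := dn α / 2) (by positivity) (fun n => by
      have : dn α ≤ |α - n| := round_le α n
      linarith) M
    unfold BW
    refine h2.trans (le_of_eq ?_)
    congr 1
    ring
  | succ k ih =>
    intro N α hα f hf hc M hM
    have h1 := diff_ineq (fun x : ℕ => e (f.eval (x : ℝ))) M
    have h2 : ∀ h ∈ range M, ‖∑ x ∈ range (M - h), e (f.eval ((h + x : ℕ) : ℝ)) *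
        (starRingEnd ℂ) (e (f.eval (x : ℝ)))‖ ≤
        if h = 0 then (N : ℝ) else BW k N ((((k + 2) * h : ℕ) : ℝ) * α) := by
      intro h hh
      rw [mem_range] at hh
      split_ifs with h0
      · refine (norm_sum_le _ _).trans ?_
        have h3 : ∀ x ∈ range (M - h), ‖e (f.eval ((h + x : ℕ) : ℝ)) *
            (starRingEnd ℂ) (e (f.eval (x : ℝ)))‖ ≤ 1 := by
          intro x _
          rw [norm_mul, RCLike.norm_conj, norm_e, norm_e, one_mul]
        refine (Finset.sum_le_sum h3).trans ?_
        rw [Finset.sum_const, card_range, nsmul_eq_mul, mul_one]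
        have : M - h ≤ N := by omega
        exact_mod_cast this
      · have h3 := diff_coeff k f (by omega) (h : ℝ)
        have h4 : ∀ x : ℕ, e (f.eval ((h + x : ℕ) : ℝ)) * (starRingEnd ℂ) (e (f.eval (x : ℝ))) =
            e ((taylor (h : ℝ) f - f).eval (x : ℝ)) := by
          intro x
          rw [← e_neg, ← e_add, eval_sub, taylor_eval]
          congr 1
          push_cast
          rw [add_comm (h : ℝ) (x : ℝ)]
          ring
        simp only [h4]
        have h5 : (taylor (h : ℝ) f - f).coeff (k + 1) = (((k + 2) * h : ℕ) : ℝ) * α := by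
          rw [h3.2]
          rw [show k + 1 + 1 = k + 2 by ring] at hc
          rw [hc]
          push_cast
          ring
        refine ih N _ ?_ _ h3.1 h5 (M - h) (by omega)
        exact hα.natCast_mul (by positivity)
    have h3 : ‖∑ x ∈ range M, e (f.eval (x : ℝ))‖ ^ 2 ≤
        2 * ((N : ℝ) + ∑ h ∈ Ico 1 N, BW k N ((((k + 2) * h : ℕ) : ℝ) * α)) := by
      refine h1.trans (mul_le_mul_of_nonneg_left ?_ (by norm_num))
      refine (Finset.sum_le_sum h2).trans ?_
      rcases Nat.eq_zero_or_pos M with h0 | hpos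
      · rw [h0, Finset.sum_range_zero]
        have h4 : 0 ≤ ∑ h ∈ Ico 1 N, BW k N ((((k + 2) * h : ℕ) : ℝ) * α) :=
          Finset.sum_nonneg fun _ _ => BW_nonneg _ _ _
        positivity
      · rw [Finset.range_eq_Ico, Finset.sum_eq_sum_Ico_succ_bot hpos, if_pos rfl]
        refine add_le_add le_rfl ?_
        calc ∑ h ∈ Ico (0 + 1) M, (if h = 0 then (N : ℝ) else BW k N ((((k + 2) * h : ℕ) : ℝ) * α)) =
              ∑ h ∈ Ico (0 + 1) M, BW k N ((((k + 2) * h : ℕ) : ℝ) * α) := by
              refine Finset.sum_congr rfl fun h hh => ?_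
              rw [mem_Ico] at hh
              rw [if_neg (by omega)]
          _ ≤ ∑ h ∈ Ico 1 N, BW k N ((((k + 2) * h : ℕ) : ℝ) * α) :=
              Finset.sum_le_sum_of_subset_of_nonneg (Ico_subset_Ico (by omega) hM)
                fun _ _ _ => BW_nonneg _ _ _
    unfold BW
    exact Real.le_sqrt_of_sq_le h3

end Pool.Agent.Run7.h783.PL
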